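import Mathlib

/-!
# The S-unit theorem for number fields

`S` a finite set of height one primes of `𝓞 K`; `U = S.unit K` (Mathlib's `Set.unit`).
`plog x w` is the logarithm of the normalised absolute value of `x ∈ Kˣ` at the place
`w ∈ S_∞ ⊔ S`.
-/

open NumberField IsDedekindDomain Module
open scoped nonZeroDivisors

namespace SUnit

variable {K : Type*} [Field K] [NumberField K]

/-- places above: infinite places and the finite places in `S` -/
abbrev Pl (K : Type*) [Field K] [NumberField K] (S : Finset (HeightOneSpectrum (𝓞 K))) :=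
  InfinitePlace K ⊕ S

/-- logarithm of the normalised absolute value -/
noncomputable def plog (S : Finset (HeightOneSpectrum (𝓞 K))) :
    Additive Kˣ →+ (Pl K S → ℝ) where
  toFun x w := match w with
    | Sum.inl w => w.mult * Real.log (w (x.toMul : K))
    | Sum.inr v => Real.log (FinitePlace.mk v.1 (x.toMul : K))
  map_zero' := by
    funext w
    rcases w with w | v <;> simp
  map_add' x y := by
    funext w
    rcases w with w | v
    · have hx : w (x.toMul : K) ≠ 0 := by simp
      have hy : w (y.toMul : K) ≠ 0 := by simp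
      simp [Real.log_mul hx hy, mul_add]
    · have hx : FinitePlace.mk v.1 (x.toMul : K) ≠ 0 := by simp
      have hy : FinitePlace.mk v.1 (y.toMul : K) ≠ 0 := by simp
      show Real.log (FinitePlace.mk v.1 ((x + y).toMul : K)) = Real.log _ + Real.log _
      rw [← Real.log_mul hx hy, ← map_mul]
      rfl

@[simp] theorem plog_inl (S : Finset (HeightOneSpectrum (𝓞 K))) (x : Additive Kˣ)
    (w : InfinitePlace K) : plog S x (Sum.inl w) = w.mult * Real.log (w (x.toMul : K)) := rfl

theorem plog_inr (S : Finset (HeightOneSpectrum (𝓞 K))) (x : Additive Kˣ)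
    (v : S) : plog S x (Sum.inr v) = Real.log (FinitePlace.mk v.1 (x.toMul : K)) := rfl

/-- the finite absolute value is one iff the valuation is one -/
theorem finitePlace_eq_one_iff (v : HeightOneSpectrum (𝓞 K)) (x : K) :
    FinitePlace.mk v x = 1 ↔ v.valuation K x = 1 := by
  rw [FinitePlace.mk_apply, FinitePlace.norm_embedding, HeightOneSpectrum.adicAbv_def]
  norm_cast
  rw [WithZeroMulInt.toNNReal_eq_one_iff]
  · exact HeightOneSpectrum.one_lt_absNorm_nnreal v |>.ne'
  
theorem finitePlace_le_one_iff (v : HeightOneSpectrum (𝓞 K)) (x : K) :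
    FinitePlace.mk v x ≤ 1 ↔ v.valuation K x ≤ 1 := by
  rw [FinitePlace.mk_apply, FinitePlace.norm_embedding, HeightOneSpectrum.adicAbv_def]
  norm_cast
  rw [WithZeroMulInt.toNNReal_le_one_iff]
  · exact HeightOneSpectrum.one_lt_absNorm_nnreal v

/-- membership in the group of `S`-units -/
theorem mem_unit_iff (S : Finset (HeightOneSpectrum (𝓞 K))) (x : Kˣ) :
    x ∈ (S : Set (HeightOneSpectrum (𝓞 K))).unit K ↔
      ∀ v : HeightOneSpectrum (𝓞 K), v ∉ S → FinitePlace.mk v (x : K) = 1 := by
  have : x ∈ (S : Set (HeightOneSpectrum (𝓞 K))).unit K ↔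
      ∀ v : HeightOneSpectrum (𝓞 K), v ∉ (S : Set (HeightOneSpectrum (𝓞 K))) →
        v.valuation K (x : K) = 1 := Iff.rfl
  rw [this]
  simp only [Finset.mem_coe, finitePlace_eq_one_iff]

/-- the group of `S`-units as an additive subgroup of `Additive Kˣ` -/
noncomputable abbrev U (K : Type*) [Field K] [NumberField K] (S : Finset (HeightOneSpectrum (𝓞 K))) :
    AddSubgroup (Additive Kˣ) :=
  ((S : Set (HeightOneSpectrum (𝓞 K))).unit K).toAddSubgroup

theorem mem_U_iff (S : Finset (HeightOneSpectrum (𝓞 K))) (x : Additive Kˣ) :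
    x ∈ U K S ↔ ∀ v : HeightOneSpectrum (𝓞 K), v ∉ S → FinitePlace.mk v (x.toMul : K) = 1 :=
  mem_unit_iff S x.toMul

/-- product formula -/
theorem sum_plog (S : Finset (HeightOneSpectrum (𝓞 K))) (x : Additive Kˣ) (hx : x ∈ U K S) :
    ∑ w, plog S x w = 0 := by
  rw [mem_U_iff] at hx
  have hx0 : (x.toMul : K) ≠ 0 := x.toMul.ne_zero
  have h := prod_abs_eq_one hx0
  have h2 : ∏ᶠ w : FinitePlace K, w (x.toMul : K)
      = ∏ v : S, FinitePlace.mk v.1 (x.toMul : K) := by
    rw [← finprod_comp_equiv FinitePlace.equivHeightOneSpectrum.symm]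
    rw [Finset.prod_coe_sort S (fun v => FinitePlace.mk v (x.toMul : K))]
    apply finprod_eq_prod_of_mulSupport_subset
    intro v hv
    by_contra hvS
    exact hv (hx v (by simpa using hvS))
  rw [h2] at h
  have h3 := congrArg Real.log h
  rw [Real.log_one, Real.log_mul] at h3
  · rw [Real.log_prod, Real.log_prod] at h3
    · rw [Fintype.sum_sum_type]
      simpa [plog_inr, Real.log_pow] using h3
    · intro v _
      simp
    · intro w _
      simp
  · rw [Finset.prod_ne_zero_iff]
    intro w _
    simp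
  · rw [Finset.prod_ne_zero_iff]
    intro w _
    simp

/-- **Northcott for `S`-units**: only finitely many `S`-units have bounded logarithms. -/
theorem finite_bounded (S : Finset (HeightOneSpectrum (𝓞 K))) (r : ℝ) :
    {x : Additive Kˣ | x ∈ U K S ∧ ∀ w, |plog S x w| ≤ r}.Finite := by
  classical
  set N : ℕ := ∏ v ∈ S, Ideal.absNorm v.asIdeal with hN
  have hN0 : N ≠ 0 := by
    rw [hN, Finset.prod_ne_zero_iff]
    intro v _
    rw [Ne, Ideal.absNorm_eq_zero_iff]
    exact v.ne_bot
  have hN0K : (N : K) ≠ 0 := by exact_mod_cast hN0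
  have hNint : ∀ v : HeightOneSpectrum (𝓞 K), FinitePlace.mk v (N : K) ≤ 1 := by
    intro v
    have := FinitePlace.norm_le_one (K := K) v (N : 𝓞 K)
    simpa using this
  have hNlt : ∀ v ∈ S, FinitePlace.mk v (N : K) < 1 := by
    intro v hv
    have h := (FinitePlace.norm_lt_one_iff_mem (K := K) v (N : 𝓞 K)).mpr ?_
    · simpa using h
    · rw [hN]
      push_cast
      rw [← Finset.mul_prod_erase _ _ hv]
      exact Ideal.mul_mem_right _ _ (Ideal.absNorm_mem v.asIdeal)
  have hk : ∀ v ∈ S, ∃ k : ℕ, (FinitePlace.mk v (N : K)) ^ k * Real.exp r ≤ 1 := by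
    intro v hv
    obtain ⟨k, hk⟩ := exists_pow_lt_of_lt_one (Real.exp_pos (-r)) (hNlt v hv)
    refine ⟨k, ?_⟩
    calc (FinitePlace.mk v (N : K)) ^ k * Real.exp r ≤ Real.exp (-r) * Real.exp r := by
          gcongr
      _ = 1 := by rw [← Real.exp_add]; simp
  choose! κ hκ using hk
  set k : ℕ := S.sup κ with hkdef
  have hk : ∀ v ∈ S, (FinitePlace.mk v (N : K)) ^ k * Real.exp r ≤ 1 := by
    intro v hv
    refine le_trans ?_ (hκ v hv)
    gcongr ?_ * _
    exact pow_le_pow_of_le_one (apply_nonneg _ _) (hNint v) (Finset.le_sup hv)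
  have hfin := Embeddings.finite_of_norm_le K ℂ ((N : ℝ) ^ k * Real.exp r)
  refine Set.Finite.of_finite_image (f := fun x : Additive Kˣ => (N : K) ^ k * (x.toMul : K))
    (hfin.subset ?_) ?_
  · rintro _ ⟨x, ⟨hxU, hxb⟩, rfl⟩
    rw [mem_U_iff] at hxU
    refine ⟨?_, ?_⟩
    · have hval : ∀ v : HeightOneSpectrum (𝓞 K),
          v.valuation K ((N : K) ^ k * (x.toMul : K)) ≤ 1 := by
        intro v
        rw [← finitePlace_le_one_iff, map_mul, map_pow]
        by_cases hv : v ∈ S
        · refine le_trans ?_ (hk v hv)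
          gcongr
          have h1 := hxb (Sum.inr ⟨v, hv⟩)
          rw [plog_inr] at h1
          have h2 := (abs_le.mp h1).2
          have hpos : 0 < FinitePlace.mk v (x.toMul : K) := by
            rw [FinitePlace.pos_iff]
            exact x.toMul.ne_zero
          rwa [Real.log_le_iff_le_exp hpos] at h2
        · rw [hxU v hv, mul_one]
          exact pow_le_one₀ (apply_nonneg _ _) (hNint v)
      obtain ⟨y, hy⟩ := HeightOneSpectrum.mem_integers_of_valuation_le_one K _ hval
      show IsIntegral ℤ ((N : K) ^ k * (x.toMul : K))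
      rw [← hy]
      exact RingOfIntegers.isIntegral_coe y
    · intro φ
      have h1 := hxb (Sum.inl (InfinitePlace.mk φ))
      rw [plog_inl] at h1
      have hpos : 0 < (InfinitePlace.mk φ) (x.toMul : K) := by
        rw [InfinitePlace.pos_iff]
        exact x.toMul.ne_zero
      have hm : (1 : ℝ) ≤ (InfinitePlace.mk φ).mult := by
        exact_mod_cast InfinitePlace.one_le_mult
      have h2 : Real.log ((InfinitePlace.mk φ) (x.toMul : K)) ≤ r := by
        rw [abs_mul, abs_of_pos (by linarith : (0:ℝ) < (InfinitePlace.mk φ).mult)] at h1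
        calc _ ≤ |Real.log ((InfinitePlace.mk φ) (x.toMul : K))| := le_abs_self _
          _ ≤ (InfinitePlace.mk φ).mult * |Real.log ((InfinitePlace.mk φ) (x.toMul : K))| :=
            le_mul_of_one_le_left (abs_nonneg _) hm
          _ ≤ r := h1
      rw [Real.log_le_iff_le_exp hpos, InfinitePlace.apply] at h2
      show ‖φ ((N : K) ^ k * (x.toMul : K))‖ ≤ _
      rw [map_mul, map_pow, map_natCast, norm_mul, norm_pow, Complex.norm_natCast]
      gcongr
  · intro x _ y _ hxy
    have : (N : K) ^ k * (x.toMul : K) = (N : K) ^ k * (y.toMul : K) := hxy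
    have h2 := mul_left_cancel₀ (pow_ne_zero k hN0K) this
    exact Additive.toMul.injective (Units.ext h2)

/-- an integer divisible by exactly one given prime -/
theorem exists_generator (v : HeightOneSpectrum (𝓞 K)) :
    ∃ a : 𝓞 K, a ≠ 0 ∧ ∀ v' : HeightOneSpectrum (𝓞 K), a ∈ v'.asIdeal ↔ v' = v := by
  classical
  have hv0 : v.asIdeal ∈ (Ideal (𝓞 K))⁰ := mem_nonZeroDivisors_iff_ne_zero.mpr v.ne_bot
  set I : (Ideal (𝓞 K))⁰ := ⟨v.asIdeal, hv0⟩ with hI
  have h1 : ClassGroup.mk0 (I ^ Fintype.card (ClassGroup (𝓞 K))) = 1 := by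
    rw [map_pow, pow_card_eq_one]
  have h2 := (ClassGroup.mk0_eq_one_iff (I ^ Fintype.card (ClassGroup (𝓞 K))).2).mp h1
  obtain ⟨a, ha⟩ := h2
  have ha' : v.asIdeal ^ Fintype.card (ClassGroup (𝓞 K)) = Ideal.span {a} := by
    have : ((I ^ Fintype.card (ClassGroup (𝓞 K)) : (Ideal (𝓞 K))⁰) : Ideal (𝓞 K))
        = v.asIdeal ^ Fintype.card (ClassGroup (𝓞 K)) := by
      simp [hI]
    rw [← this, ha]
  refine ⟨a, ?_, ?_⟩
  · rintro rfl
    have : v.asIdeal ^ Fintype.card (ClassGroup (𝓞 K)) = ⊥ := by
      rw [ha']; simp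
    exact v.ne_bot (pow_eq_zero_iff (Fintype.card_ne_zero) |>.mp this)
  · intro v'
    rw [← Ideal.span_singleton_le_iff_mem, ← ha']
    constructor
    · intro h
      have h3 : v.asIdeal ≤ v'.asIdeal := Ideal.IsPrime.le_of_pow_le (hP := v'.isPrime) h
      have h4 := v.isMaximal.eq_of_le v'.isPrime.ne_top h3
      exact (HeightOneSpectrum.ext h4).symm
    · rintro rfl
      exact Ideal.pow_le_self Fintype.card_ne_zero

open NumberField.Units NumberField.Units.dirichletUnitTheorem in
/-- the hyperplane `∑ = 0` -/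
noncomputable def hyper (K : Type*) [Field K] [NumberField K]
    (S : Finset (HeightOneSpectrum (𝓞 K))) : Submodule ℝ (Pl K S → ℝ) :=
  LinearMap.ker (∑ w, LinearMap.proj (R := ℝ) (φ := fun _ => ℝ) w : (Pl K S → ℝ) →ₗ[ℝ] ℝ)

theorem mem_hyper (S : Finset (HeightOneSpectrum (𝓞 K))) (f : Pl K S → ℝ) :
    f ∈ hyper K S ↔ ∑ w, f w = 0 := by
  simp [hyper]

open NumberField.Units NumberField.Units.dirichletUnitTheorem in
/-- the logarithms of units span the part of the hyperplane supported at infinity -/
theorem inf_mem_span (S : Finset (HeightOneSpectrum (𝓞 K))) (f : Pl K S → ℝ)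
    (hf : ∑ w, f w = 0) (hfin : ∀ v : S, f (Sum.inr v) = 0) :
    f ∈ Submodule.span ℝ (plog S '' (U K S : Set (Additive Kˣ))) := by
  classical
  set E : logSpace K →ₗ[ℝ] (Pl K S → ℝ) :=
    LinearMap.pi (fun w => match w with
      | Sum.inl w => if h : w = w₀ then
          -(∑ w', LinearMap.proj (R := ℝ) (φ := fun _ => ℝ) w' : logSpace K →ₗ[ℝ] ℝ)
          else LinearMap.proj (R := ℝ) (φ := fun _ => ℝ) ⟨w, h⟩
      | Sum.inr _ => 0) with hE
  have hspan : Submodule.map E ⊤ ≤ Submodule.span ℝ (plog S '' (U K S : Set (Additive Kˣ))) := by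
    rw [← unitLattice_span_eq_top K, Submodule.map_span]
    apply Submodule.span_mono
    rintro _ ⟨g, ⟨u, _, rfl⟩, rfl⟩
    set x : Additive Kˣ := Additive.ofMul (Units.map (algebraMap (𝓞 K) K).toMonoidHom u.toMul)
      with hx
    refine ⟨x, ?_, ?_⟩
    · rw [SetLike.mem_coe, mem_U_iff]
      intro v _
      have h1 := (FinitePlace.norm_eq_one_iff_notMem (K := K) v (u.toMul : 𝓞 K)).mpr (by
        intro h
        exact v.isPrime.ne_top (Ideal.eq_top_of_isUnit_mem _ h u.toMul.isUnit))
      exact h1
    · funext w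
      rcases w with w | v
      · rw [plog_inl, hE]
        by_cases h : w = w₀
        · subst h
          have := sum_logEmbedding_component u.toMul
          simp only [LinearMap.pi_apply, dif_pos, LinearMap.neg_apply, LinearMap.sum_apply,
            LinearMap.proj_apply]
          have h3 : ∑ d, (logEmbedding K).toIntLinearMap u d
              = -↑w₀.mult * Real.log (w₀ ((algebraMap (𝓞 K) K) ↑(Additive.toMul u))) := this
          rw [h3]
          simp [hx]
        · simp only [LinearMap.pi_apply, dif_neg h, LinearMap.proj_apply]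
          rfl
      · rw [plog_inr, hE]
        have h1 := (FinitePlace.norm_eq_one_iff_notMem (K := K) v.1 (u.toMul : 𝓞 K)).mpr (by
          intro h
          exact v.1.isPrime.ne_top (Ideal.eq_top_of_isUnit_mem _ h u.toMul.isUnit))
        have h2 : FinitePlace.mk v.1 (x.toMul : K) = 1 := h1
        rw [h2]
        simp
  refine hspan ⟨fun w => f (Sum.inl w.1), trivial, ?_⟩
  funext w
  rcases w with w | v
  · by_cases h : w = w₀
    · subst h
      simp only [hE, LinearMap.pi_apply, dif_pos, LinearMap.neg_apply, LinearMap.sum_apply,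
            LinearMap.proj_apply]
      rw [Fintype.sum_sum_type] at hf
      simp only [hfin, Finset.sum_const_zero, add_zero] at hf
      rw [Fintype.sum_eq_add_sum_subtype_ne _ (w₀ : InfinitePlace K)] at hf
      linarith
    · simp only [hE, LinearMap.pi_apply, dif_neg h, LinearMap.proj_apply]
  · rw [hfin]
    rfl

/-- **span part of the `S`-unit theorem** -/
theorem span_plog (S : Finset (HeightOneSpectrum (𝓞 K))) :
    Submodule.span ℝ (plog S '' (U K S : Set (Additive Kˣ))) = hyper K S := by
  classical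
  apply le_antisymm
  · rw [Submodule.span_le]
    rintro _ ⟨x, hx, rfl⟩
    rw [SetLike.mem_coe, mem_hyper]
    exact sum_plog S x hx
  · intro f hf
    rw [mem_hyper] at hf
    -- the elements `a v`
    choose a ha0 ha using exists_generator (K := K)
    have haK : ∀ v, (algebraMap (𝓞 K) K (a v)) ≠ 0 := by
      intro v
      rw [Ne, FaithfulSMul.algebraMap_eq_zero_iff]
      exact ha0 v
    set x : HeightOneSpectrum (𝓞 K) → Additive Kˣ :=
      fun v => Additive.ofMul (Units.mk0 _ (haK v)) with hx
    have hval : ∀ v v', v' ≠ v → FinitePlace.mk v' ((x v).toMul : K) = 1 := by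
      intro v v' h
      have h1 := (FinitePlace.norm_eq_one_iff_notMem (K := K) v' (a v)).mpr (by
        rw [ha v v']; exact h)
      exact h1
    have hval2 : ∀ v, FinitePlace.mk v ((x v).toMul : K) < 1 := by
      intro v
      exact (FinitePlace.norm_lt_one_iff_mem (K := K) v (a v)).mpr ((ha v v).mpr rfl)
    have hxU : ∀ v ∈ S, x v ∈ U K S := by
      intro v hv
      rw [mem_U_iff]
      intro v' hv'
      exact hval v v' (fun h => hv' (h ▸ hv))
    have hlog : ∀ v : S, plog S (x v.1) (Sum.inr v) ≠ 0 := by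
      intro v
      rw [plog_inr]
      have hpos : 0 < FinitePlace.mk v.1 ((x v.1).toMul : K) := by
        rw [FinitePlace.pos_iff]
        exact (x v.1).toMul.ne_zero
      exact (Real.log_neg hpos (hval2 v.1)).ne
    set g : Pl K S → ℝ := ∑ v : S, (f (Sum.inr v) / plog S (x v.1) (Sum.inr v)) • plog S (x v.1)
      with hg
    have hgmem : g ∈ Submodule.span ℝ (plog S '' (U K S : Set (Additive Kˣ))) := by
      apply Submodule.sum_mem
      intro v _
      apply Submodule.smul_mem
      exact Submodule.subset_span ⟨x v.1, hxU v.1 v.2, rfl⟩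
    have hgsum : ∑ w, g w = 0 := by
      have : g ∈ hyper K S := by
        apply Submodule.sum_mem
        intro v _
        apply Submodule.smul_mem
        rw [mem_hyper]
        exact sum_plog S _ (hxU v.1 v.2)
      rwa [mem_hyper] at this
    have hginr : ∀ v : S, g (Sum.inr v) = f (Sum.inr v) := by
      intro v
      rw [hg, Finset.sum_apply, Finset.sum_eq_single v]
      · simp only [Pi.smul_apply, smul_eq_mul]
        rw [div_mul_cancel₀ _ (hlog v)]
      · intro v' _ hne
        simp only [Pi.smul_apply, smul_eq_mul]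
        rw [plog_inr S (x v'.1) v, hval v'.1 v.1 (fun h => hne (Subtype.ext h.symm))]
        simp
      · simp
    have hsub := inf_mem_span S (f - g) (by simp [Finset.sum_sub_distrib, hf, hgsum]) (by
      intro v
      simp [hginr v])
    have := Submodule.add_mem _ hsub hgmem
    simpa using this

end SUnit
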