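import Mathlib

/-!
# Replacing an isomorphism on the range of an idempotent
-/

namespace ND

variable {k V W : Type*} [CommRing k] [AddCommGroup V] [Module k V] [AddCommGroup W] [Module k W]

/-- Let `φ : V ≃ W` be compatible with idempotents `e`, `e'` and let `φ₀ : range e ≃ range e'`.
Then `x ↦ φ₀ (e x) + φ (x - e x)` is an isomorphism. -/
theorem extend_equiv (e : V →ₗ[k] V) (he : ∀ x, e (e x) = e x)
    (e' : W →ₗ[k] W) (he' : ∀ x, e' (e' x) = e' x)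
    (φ : V ≃ₗ[k] W) (hφ : ∀ x, φ (e x) = e' (φ x))
    (φ₀ : LinearMap.range e ≃ₗ[k] LinearMap.range e') :
    ∃ φ' : V ≃ₗ[k] W, (∀ x, φ' x = (φ₀ ⟨e x, ⟨x, rfl⟩⟩ : W) + φ (x - e x)) ∧
      (∀ x : LinearMap.range e, φ' x = φ₀ x) ∧ (∀ x, e x = 0 → φ' x = φ x) := by
  have hrange : ∀ y ∈ LinearMap.range e, e y = y := by
    rintro _ ⟨x, rfl⟩
    exact he x
  have hrange' : ∀ y ∈ LinearMap.range e', e' y = y := by
    rintro _ ⟨x, rfl⟩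
    exact he' x
  set f : V →ₗ[k] W :=
    (LinearMap.range e').subtype ∘ₗ φ₀.toLinearMap ∘ₗ e.rangeRestrict
      + φ.toLinearMap ∘ₗ (LinearMap.id - e) with hf
  set g : W →ₗ[k] V :=
    (LinearMap.range e).subtype ∘ₗ φ₀.symm.toLinearMap ∘ₗ e'.rangeRestrict
      + φ.symm.toLinearMap ∘ₗ (LinearMap.id - e') with hg
  have hfx : ∀ x, f x = (φ₀ ⟨e x, ⟨x, rfl⟩⟩ : W) + φ (x - e x) := fun x => rfl
  have hgx : ∀ x, g x = (φ₀.symm ⟨e' x, ⟨x, rfl⟩⟩ : V) + φ.symm (x - e' x) := fun x => rfl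
  have hφs : ∀ y, e (φ.symm y) = φ.symm (e' y) := by
    intro y
    apply φ.injective
    rw [hφ]
    simp
  have hef : ∀ x, e' (f x) = (φ₀ ⟨e x, ⟨x, rfl⟩⟩ : W) := by
    intro x
    rw [hfx, map_add, hrange' _ (φ₀ ⟨e x, ⟨x, rfl⟩⟩).2, ← hφ, map_sub, he, sub_self, map_zero,
      add_zero]
  have heg : ∀ x, e (g x) = (φ₀.symm ⟨e' x, ⟨x, rfl⟩⟩ : V) := by
    intro x
    rw [hgx, map_add, hrange _ (φ₀.symm ⟨e' x, ⟨x, rfl⟩⟩).2, hφs, map_sub, he', sub_self, map_zero,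
      add_zero]
  have hgf : ∀ x, g (f x) = x := by
    intro x
    rw [hgx]
    have h1 : (⟨e' (f x), ⟨f x, rfl⟩⟩ : LinearMap.range e') = φ₀ ⟨e x, ⟨x, rfl⟩⟩ :=
      Subtype.ext (hef x)
    rw [h1, LinearEquiv.symm_apply_apply]
    have h2 : f x - e' (f x) = φ (x - e x) := by
      rw [hef, hfx]; abel
    rw [h2, LinearEquiv.symm_apply_apply]
    abel
  have hfg : ∀ x, f (g x) = x := by
    intro x
    rw [hfx]
    have h1 : (⟨e (g x), ⟨g x, rfl⟩⟩ : LinearMap.range e) = φ₀.symm ⟨e' x, ⟨x, rfl⟩⟩ :=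
      Subtype.ext (heg x)
    rw [h1, LinearEquiv.apply_symm_apply]
    have h2 : g x - e (g x) = φ.symm (x - e' x) := by
      rw [heg, hgx]; abel
    rw [h2, LinearEquiv.apply_symm_apply]
    abel
  refine ⟨LinearEquiv.ofLinearMap f g (LinearMap.ext hfg) (LinearMap.ext hgf), hfx, ?_, ?_⟩
  · intro x
    show f x = φ₀ x
    rw [hfx]
    have h1 : e (x : V) = x := hrange _ x.2
    have h2 : (⟨e x, ⟨x, rfl⟩⟩ : LinearMap.range e) = x := Subtype.ext h1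
    rw [h2, h1, sub_self, map_zero, add_zero]
  · intro x hx
    show f x = φ x
    rw [hfx]
    have h2 : (⟨e x, ⟨x, rfl⟩⟩ : LinearMap.range e) = 0 := Subtype.ext hx
    rw [h2, map_zero, hx, sub_zero]
    simp

/-- the replaced isomorphism intertwines the same operators -/
theorem extend_intertwine (e : V →ₗ[k] V) (φ : V ≃ₗ[k] W)
    (e' : W →ₗ[k] W) (φ₀ : LinearMap.range e ≃ₗ[k] LinearMap.range e')
    (φ' : V ≃ₗ[k] W) (h : ∀ x, φ' x = (φ₀ ⟨e x, ⟨x, rfl⟩⟩ : W) + φ (x - e x))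
    (ρ : V →ₗ[k] V) (σ : W →ₗ[k] W) (hρ : ∀ x, ρ (e x) = e (ρ x))
    (hφ : ∀ x, φ (ρ x) = σ (φ x))
    (hφ₀ : ∀ x, (φ₀ ⟨e (ρ x), ⟨ρ x, rfl⟩⟩ : W) = σ (φ₀ ⟨e x, ⟨x, rfl⟩⟩ : W)) (x : V) :
    φ' (ρ x) = σ (φ' x) := by
  rw [h, h, map_add, hφ₀, ← hφ, map_sub ρ, hρ]

end ND
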