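import Pool.Agent.Lib_helper3.SU.Basic

/-!
# The S-unit theorem, lattice form
-/

open NumberField IsDedekindDomain Module
open scoped nonZeroDivisors TensorProduct

namespace SUnit

variable {K : Type*} [Field K] [NumberField K]

/-- the logarithmic map from `S`-units to the hyperplane -/
noncomputable def ell (S : Finset (HeightOneSpectrum (𝓞 K))) : U K S →ₗ[ℤ] hyper K S where
  toFun x := ⟨plog S x.1, (mem_hyper S _).mpr (sum_plog S x.1 x.2)⟩
  map_add' x y := by
    apply Subtype.ext
    show plog S (x.1 + y.1) = plog S x.1 + plog S y.1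
    rw [map_add]
  map_smul' n x := by
    apply Subtype.ext
    show plog S (n • x.1) = n • plog S x.1
    rw [map_zsmul]

theorem ell_coe (S : Finset (HeightOneSpectrum (𝓞 K))) (x : U K S) :
    (ell S x : Pl K S → ℝ) = plog S x.1 := rfl

/-- the `S`-unit lattice -/
noncomputable def lat (S : Finset (HeightOneSpectrum (𝓞 K))) : Submodule ℤ (hyper K S) :=
  LinearMap.range (ell S)

theorem lat_ball_finite (S : Finset (HeightOneSpectrum (𝓞 K))) (r : ℝ) :
    {x : hyper K S | x ∈ lat S ∧ ‖x‖ ≤ r}.Finite := by
  by_cases hr : 0 ≤ r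
  · refine ((finite_bounded S r).image (fun x : Additive Kˣ => (plog S x))).preimage
      (Subtype.val_injective.injOn) |>.subset ?_
    rintro _ ⟨⟨x, rfl⟩, hx⟩
    refine ⟨x.1, ⟨x.2, fun w => ?_⟩, rfl⟩
    have h1 : ‖(plog S x.1)‖ ≤ r := hx
    rw [pi_norm_le_iff_of_nonneg hr] at h1
    exact h1 w
  · convert Set.finite_empty
    ext x
    simp only [Set.mem_ofPred_eq, Set.mem_empty_iff_false, iff_false, not_and, not_le]
    intro _
    exact lt_of_lt_of_le (not_le.mp hr) (norm_nonneg _)

instance (S : Finset (HeightOneSpectrum (𝓞 K))) : DiscreteTopology (lat S) := by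
  refine discreteTopology_of_isOpen_singleton_zero ?_
  refine isOpen_singleton_of_finite_mem_nhds 0 (s := Metric.closedBall 0 1) ?_ ?_
  · exact Metric.closedBall_mem_nhds _ (by simp)
  · refine Set.Finite.of_finite_image ?_ (Set.injOn_of_injective Subtype.val_injective)
    refine (lat_ball_finite S 1).subset ?_
    rintro _ ⟨x, hx, rfl⟩
    refine ⟨x.2, ?_⟩
    rw [mem_closedBall_zero_iff] at hx
    exact hx

instance (S : Finset (HeightOneSpectrum (𝓞 K))) : IsZLattice ℝ (lat S) where
  span_top := by
    rw [eq_top_iff]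
    have h := span_plog S
    have hinj : Function.Injective (hyper K S).subtype := Subtype.val_injective
    rw [← Submodule.map_le_map_iff_of_injective hinj, Submodule.map_subtype_top,
      Submodule.map_span]
    refine h.ge.trans (Submodule.span_mono ?_)
    rintro _ ⟨x, hx, rfl⟩
    exact ⟨ell S ⟨x, hx⟩, ⟨⟨x, hx⟩, rfl⟩, rfl⟩

theorem isOfFinAddOrder_of_plog_eq_zero (S : Finset (HeightOneSpectrum (𝓞 K)))
    (x : Additive Kˣ) (hx : x ∈ U K S) (h0 : plog S x = 0) : IsOfFinAddOrder x := by
  have hfin := finite_bounded S 0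
  have hmap : ∀ n : ℕ, n • x ∈ {x : Additive Kˣ | x ∈ U K S ∧ ∀ w, |plog S x w| ≤ 0} := by
    intro n
    refine ⟨AddSubgroup.nsmul_mem _ hx n, fun w => ?_⟩
    rw [map_nsmul, h0]
    simp
  by_contra hcon
  have hinj : Function.Injective (fun n : ℕ => n • x) :=
    injective_nsmul_iff_not_isOfFinAddOrder.mpr hcon
  exact Set.infinite_range_of_injective hinj (hfin.subset (by
    rintro _ ⟨n, rfl⟩
    exact hmap n))

/-- **The `S`-unit theorem**, explicit form: fundamental `S`-units. -/
theorem exists_fundamental (S : Finset (HeightOneSpectrum (𝓞 K))) :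
    ∃ u : Fin (finrank ℝ (hyper K S)) → U K S,
      LinearIndependent ℝ (fun i => plog S (u i).1) ∧
      Submodule.span ℝ (Set.range fun i => plog S (u i).1) = hyper K S ∧
      ∀ x : U K S, ∃ n : Fin (finrank ℝ (hyper K S)) → ℤ,
        IsOfFinAddOrder (x - ∑ i, n i • u i) := by
  classical
  have hfree : Module.Free ℤ (lat S) := ZLattice.module_free ℝ (lat S)
  have hfinite : Module.Finite ℤ (lat S) := ZLattice.module_finite ℝ (lat S)
  have hrank : finrank ℤ (lat S) = finrank ℝ (hyper K S) := ZLattice.rank ℝ (lat S)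
  obtain ⟨b⟩ : Nonempty (Basis (Fin (finrank ℝ (hyper K S))) ℤ (lat S)) := by
    rw [← hrank]
    exact ⟨Module.finBasis ℤ (lat S)⟩
  choose u hu using fun i => (b i).2
  have hli : LinearIndependent ℝ (fun i => ((b i : lat S) : hyper K S)) := by
    have := (b.ofZLatticeBasis ℝ (lat S)).linearIndependent
    have h2 : (⇑(b.ofZLatticeBasis ℝ (lat S))) = fun i => ((b i : lat S) : hyper K S) := by
      funext i
      exact b.ofZLatticeBasis_apply ℝ (lat S) i
    rwa [h2] at this
  have hsp : Submodule.span ℝ (Set.range fun i => ((b i : lat S) : hyper K S)) = ⊤ := by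
    have := (b.ofZLatticeBasis ℝ (lat S)).span_eq
    have h2 : (⇑(b.ofZLatticeBasis ℝ (lat S))) = fun i => ((b i : lat S) : hyper K S) := by
      funext i
      exact b.ofZLatticeBasis_apply ℝ (lat S) i
    rwa [h2] at this
  refine ⟨u, ?_, ?_, ?_⟩
  · have := hli.map' (hyper K S).subtype (Submodule.ker_subtype _)
    have h3 : (⇑(hyper K S).subtype ∘ fun i => ((b i : lat S) : hyper K S))
        = fun i => plog S (u i).1 := by
      funext i
      simp only [Function.comp_apply, ← hu i, Submodule.subtype_apply, ell_coe]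
    rwa [h3] at this
  · have := congrArg (Submodule.map (hyper K S).subtype) hsp
    rw [Submodule.map_span, Submodule.map_subtype_top] at this
    have h3 : (⇑(hyper K S).subtype '' Set.range fun i => ((b i : lat S) : hyper K S))
        = Set.range fun i => plog S (u i).1 := by
      rw [← Set.range_comp]
      congr 1
      funext i
      simp only [Function.comp_apply, ← hu i, Submodule.subtype_apply, ell_coe]
    rwa [h3] at this
  · intro x
    set y : lat S := ⟨ell S x, ⟨x, rfl⟩⟩ with hy
    refine ⟨fun i => b.repr y i, ?_⟩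
    have h1 := b.sum_repr y
    have h2 : ell S (x - ∑ i, b.repr y i • u i) = 0 := by
      rw [map_sub, map_sum]
      simp only [map_smul, hu]
      have h3 := congrArg (Submodule.subtype (lat S)) h1
      rw [map_sum] at h3
      simp only [map_smul, Submodule.subtype_apply] at h3
      rw [h3, sub_self]
    have h4 := isOfFinAddOrder_of_plog_eq_zero S _ (x - ∑ i, b.repr y i • u i).2 (by
      have := congrArg Subtype.val h2
      exact this)
    exact (AddSubmonoid.isOfFinAddOrder_coe (x := x - ∑ i, b.repr y i • u i)).mp h4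

end SUnit
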