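import Mathlib

/-!
# The theorem of Noether and Deuring

Two finite dimensional modules over a field `k` (with an arbitrary family of operators) which become
isomorphic over an extension field are isomorphic over `k` (here for infinite `k`).
-/

open Module
open scoped TensorProduct

namespace ND

variable {k K : Type*} [Field k] [Infinite k] [Field K] [Algebra k K]

theorem matrix_noether_deuring {n : Type*} [Fintype n] [DecidableEq n] {ι : Type*}
    (R S : ι → Matrix n n k) (A : Matrix n n K) (hA : A.det ≠ 0)
    (h : ∀ i, A * (R i).map (algebraMap k K) = (S i).map (algebraMap k K) * A) :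
    ∃ B : Matrix n n k, B.det ≠ 0 ∧ ∀ i, B * R i = S i * B := by
  classical
  -- the span of the entries
  set V : Submodule k K := Submodule.span k (Set.range fun p : n × n => A p.1 p.2) with hV
  have hVfin : Module.Finite k V := by
    rw [hV]
    exact Module.Finite.span_of_finite k (Set.finite_range _)
  set b := Module.finBasis k V with hb
  set F : Fin (finrank k V) → Matrix n n k := fun j =>
    Matrix.of fun a c => b.repr ⟨A a c, Submodule.subset_span ⟨(a, c), rfl⟩⟩ j with hF
  have hA2 : ∀ a c, A a c = ∑ j, algebraMap k K (F j a c) * (b j : K) := by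
    intro a c
    have h1 := b.sum_repr ⟨A a c, Submodule.subset_span ⟨(a, c), rfl⟩⟩
    have h2 := congrArg (Submodule.subtype V) h1
    rw [map_sum] at h2
    simp only [map_smul, Submodule.subtype_apply] at h2
    rw [← h2]
    refine Finset.sum_congr rfl fun j _ => ?_
    rw [Algebra.smul_def]
    rfl
  have hli : LinearIndependent k (fun j => (b j : K)) := by
    have := b.linearIndependent.map' V.subtype (Submodule.ker_subtype _)
    exact this
  have hint : ∀ i j, F j * R i = S i * F j := by
    intro i j
    ext a c
    have h1 := congrFun (congrFun (h i) a) c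
    rw [Matrix.mul_apply, Matrix.mul_apply] at h1
    simp only [Matrix.map_apply, hA2] at h1
    have h2 : ∑ j, ((F j * R i) a c - (S i * F j) a c) • (b j : K) = 0 := by
      simp only [sub_smul, Finset.sum_sub_distrib]
      rw [sub_eq_zero]
      simp only [Matrix.mul_apply, Algebra.smul_def, map_sum, map_mul, Finset.sum_mul]
      rw [Finset.sum_comm]
      rw [Finset.sum_comm (s := Finset.univ) (t := Finset.univ)
        (f := fun j x => algebraMap k K (S i a x) * algebraMap k K (F j x c) * (b j : K))]
      rw [show (∑ y, ∑ x, algebraMap k K (F x a y) * algebraMap k K (R i y c) * (b x : K))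
        = ∑ j, (∑ j_1, algebraMap k K (F j_1 a j) * (b j_1 : K)) * algebraMap k K (R i j c) by
          refine Finset.sum_congr rfl fun y _ => ?_
          rw [Finset.sum_mul]
          refine Finset.sum_congr rfl fun x _ => ?_
          ring]
      rw [h1]
      refine Finset.sum_congr rfl fun y _ => ?_
      rw [Finset.mul_sum]
      refine Finset.sum_congr rfl fun x _ => ?_
      ring
    have h3 := (Fintype.linearIndependent_iff.mp hli) _ h2 j
    exact sub_eq_zero.mp h3
  -- the determinant polynomial
  set P : MvPolynomial (Fin (finrank k V)) k :=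
    (Matrix.of fun a c => ∑ j, MvPolynomial.C (F j a c) * MvPolynomial.X j).det with hP
  have hP0 : P ≠ 0 := by
    intro h0
    have h1 : MvPolynomial.aeval (fun j => (b j : K)) P = A.det := by
      rw [hP, AlgHom.map_det]
      congr 1
      ext a c
      simp only [AlgHom.mapMatrix_apply, Matrix.map_apply, Matrix.of_apply, map_sum, map_mul,
        MvPolynomial.aeval_X]
      rw [hA2]
      refine Finset.sum_congr rfl fun j _ => ?_
      rw [MvPolynomial.aeval_C]
    rw [h0, map_zero] at h1
    exact hA h1.symm
  obtain ⟨x, hx⟩ : ∃ x : Fin (finrank k V) → k, MvPolynomial.eval x P ≠ 0 := by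
    by_contra hcon
    push Not at hcon
    exact hP0 (MvPolynomial.funext (fun x => by rw [hcon x, map_zero]))
  refine ⟨∑ j, x j • F j, ?_, ?_⟩
  · convert hx using 1
    rw [hP, RingHom.map_det]
    congr 1
    ext a c
    simp only [RingHom.mapMatrix_apply, Matrix.map_apply, Matrix.of_apply, map_sum, map_mul,
      MvPolynomial.eval_C, MvPolynomial.eval_X, Matrix.sum_apply, Matrix.smul_apply, smul_eq_mul]
    refine Finset.sum_congr rfl fun j _ => ?_
    ring
  · intro i
    rw [Finset.sum_mul, Finset.mul_sum]
    refine Finset.sum_congr rfl fun j _ => ?_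
    rw [Matrix.smul_mul, Matrix.mul_smul, hint i j]

end ND

namespace ND

variable {k K : Type*} [Field k] [Infinite k] [Field K] [Algebra k K]

/-- **Noether–Deuring**: two finite dimensional `k`-vector spaces with a family of operators which
become isomorphic over `K` are isomorphic. -/
theorem noether_deuring {M N : Type*} [AddCommGroup M] [Module k M] [Module.Finite k M]
    [AddCommGroup N] [Module k N] [Module.Finite k N] {ι : Type*}
    (ρ : ι → M →ₗ[k] M) (σ : ι → N →ₗ[k] N) (e : (K ⊗[k] M) ≃ₗ[K] (K ⊗[k] N))
    (he : ∀ i x, e ((ρ i).baseChange K x) = (σ i).baseChange K (e x)) :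
    ∃ f : M ≃ₗ[k] N, ∀ i x, f (ρ i x) = σ i (f x) := by
  classical
  have hdim : finrank k M = finrank k N := by
    have h := e.finrank_eq
    rwa [Module.finrank_baseChange, Module.finrank_baseChange] at h
  set bM : Basis (Fin (finrank k N)) k M := (Module.finBasis k M).reindex (finCongr hdim)
    with hbM
  set bN : Basis (Fin (finrank k N)) k N := Module.finBasis k N with hbN
  set cM := Algebra.TensorProduct.basis K bM with hcM
  set cN := Algebra.TensorProduct.basis K bN with hcN
  have hbc : ∀ (f : M →ₗ[k] M), LinearMap.toMatrix cM cM (f.baseChange K)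
      = (LinearMap.toMatrix bM bM f).map (algebraMap k K) := by
    intro f
    exact LinearMap.toMatrix_baseChange K f bM bM
  have hbc2 : ∀ (f : N →ₗ[k] N), LinearMap.toMatrix cN cN (f.baseChange K)
      = (LinearMap.toMatrix bN bN f).map (algebraMap k K) := by
    intro f
    exact LinearMap.toMatrix_baseChange K f bN bN
  set A := LinearMap.toMatrix cM cN e.toLinearMap with hA
  have hdet : A.det ≠ 0 := by
    have h1 : LinearMap.toMatrix cN cM e.symm.toLinearMap * A = 1 := by
      rw [hA, ← LinearMap.toMatrix_comp]
      simp
    intro h0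
    have h2 := congrArg Matrix.det h1
    rw [Matrix.det_mul, h0, mul_zero, Matrix.det_one] at h2
    exact zero_ne_one h2
  obtain ⟨B, hB, hBi⟩ := matrix_noether_deuring (K := K)
    (fun i => LinearMap.toMatrix bM bM (ρ i)) (fun i => LinearMap.toMatrix bN bN (σ i)) A hdet
    (by
      intro i
      rw [← hbc, ← hbc2, hA, ← LinearMap.toMatrix_comp, ← LinearMap.toMatrix_comp]
      congr 1
      refine LinearMap.ext fun x => ?_
      exact he i x)
  have hBu : IsUnit B.det := isUnit_iff_ne_zero.mpr hB
  set f : M →ₗ[k] N := Matrix.toLin bM bN B with hf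
  set g : N →ₗ[k] M := Matrix.toLin bN bM B⁻¹ with hg
  have hfg : f ∘ₗ g = LinearMap.id := by
    rw [hf, hg, ← Matrix.toLin_mul, Matrix.mul_nonsing_inv _ hBu, Matrix.toLin_one]
  have hgf : g ∘ₗ f = LinearMap.id := by
    rw [hf, hg, ← Matrix.toLin_mul, Matrix.nonsing_inv_mul _ hBu, Matrix.toLin_one]
  refine ⟨LinearEquiv.ofLinearMap f g hfg hgf, ?_⟩
  intro i x
  show f (ρ i x) = σ i (f x)
  have h1 : f ∘ₗ ρ i = σ i ∘ₗ f := by
    apply (LinearMap.toMatrix bM bN).injective
    rw [LinearMap.toMatrix_comp bM bM bN, LinearMap.toMatrix_comp bM bN bN, hf,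
      LinearMap.toMatrix_toLin]
    exact hBi i
  exact congrArg (fun h => h x) h1

end ND
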