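import Pool.Agent.Lib_helper3.SU.Lattice

/-!
# The S-unit theorem, tensor form
-/

open NumberField IsDedekindDomain Module
open scoped nonZeroDivisors TensorProduct

namespace SUnit

variable {K : Type*} [Field K] [NumberField K]

/-- a torsion element dies in a characteristic zero base change -/
theorem tmul_eq_zero_of_torsion {M : Type*} [AddCommGroup M] {k : Type*} [Field k] [CharZero k]
    (t : M) (ht : IsOfFinAddOrder t) (c : k) : (c ⊗ₜ[ℤ] t : k ⊗[ℤ] M) = 0 := by
  obtain ⟨n, hn, hnt⟩ := isOfFinAddOrder_iff_nsmul_eq_zero.mp ht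
  have hn' : (n : k) ≠ 0 := by exact_mod_cast hn.ne'
  have h : c = (n : ℤ) • (c / n) := by
    rw [zsmul_eq_mul]
    push_cast
    field_simp
  rw [h, TensorProduct.smul_tmul]
  have : (n : ℤ) • t = 0 := by
    rw [natCast_zsmul]
    exact hnt
  rw [this, TensorProduct.tmul_zero]

/-- every element of `k ⊗ U` is a combination of the fundamental units -/
theorem tensor_span (S : Finset (HeightOneSpectrum (𝓞 K))) (k : Type*) [Field k] [CharZero k]
    {ι : Type*} [Fintype ι] (u : ι → U K S)
    (hu : ∀ x : U K S, ∃ n : ι → ℤ, IsOfFinAddOrder (x - ∑ i, n i • u i)) :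
    Submodule.span k (Set.range fun i => (1 : k) ⊗ₜ[ℤ] u i) = ⊤ := by
  rw [eq_top_iff]
  rintro z -
  induction z using TensorProduct.induction_on with
  | zero => exact Submodule.zero_mem _
  | add x y hx hy => exact Submodule.add_mem _ hx hy
  | tmul c x =>
    obtain ⟨n, hn⟩ := hu x
    have h1 : (c ⊗ₜ[ℤ] x : k ⊗[ℤ] U K S) = ∑ i, (c * n i) • ((1 : k) ⊗ₜ[ℤ] u i) := by
      have h2 : x = (x - ∑ i, n i • u i) + ∑ i, n i • u i := by abel
      conv_lhs => rw [h2]
      rw [TensorProduct.tmul_add, tmul_eq_zero_of_torsion _ hn, zero_add, TensorProduct.tmul_sum]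
      refine Finset.sum_congr rfl fun i _ => ?_
      rw [TensorProduct.smul_tmul', smul_eq_mul, mul_one, mul_comm, ← zsmul_eq_mul,
        TensorProduct.smul_tmul]
    rw [h1]
    refine Submodule.sum_mem _ fun i _ => Submodule.smul_mem _ _ ?_
    exact Submodule.subset_span ⟨i, rfl⟩

/-- `plog` as a `ℤ`-linear map on `S`-units with values in `k`-valued functions -/
noncomputable def plogk (S : Finset (HeightOneSpectrum (𝓞 K))) (k : Type*) [Field k]
    [Algebra ℝ k] : U K S →ₗ[ℤ] (Pl K S → k) where
  toFun x w := algebraMap ℝ k (plog S x.1 w)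
  map_add' x y := by
    funext w
    show algebraMap ℝ k (plog S (x.1 + y.1) w) = _ + _
    rw [map_add, Pi.add_apply, map_add]
  map_smul' n x := by
    funext w
    show algebraMap ℝ k (plog S (n • x.1) w) = n • _
    rw [map_zsmul, Pi.smul_apply, map_zsmul]

/-- the `k`-linear logarithmic map `k ⊗ U → k^{S(K)}` -/
noncomputable def lam (S : Finset (HeightOneSpectrum (𝓞 K))) (k : Type*) [Field k]
    [Algebra ℝ k] : k ⊗[ℤ] U K S →ₗ[k] (Pl K S → k) :=
  (plogk S k).liftBaseChange k

@[simp] theorem lam_tmul (S : Finset (HeightOneSpectrum (𝓞 K))) (k : Type*) [Field k]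
    [Algebra ℝ k] (c : k) (x : U K S) (w : Pl K S) :
    lam S k (c ⊗ₜ[ℤ] x) w = c * algebraMap ℝ k (plog S x.1 w) := by
  simp [lam, plogk]

/-- the hyperplane over `k` -/
noncomputable def hyperk (K : Type*) [Field K] [NumberField K]
    (S : Finset (HeightOneSpectrum (𝓞 K))) (k : Type*) [Field k] : Submodule k (Pl K S → k) :=
  LinearMap.ker (∑ w, LinearMap.proj (R := k) (φ := fun _ => k) w : (Pl K S → k) →ₗ[k] k)

theorem mem_hyperk (S : Finset (HeightOneSpectrum (𝓞 K))) {k : Type*} [Field k]
    (f : Pl K S → k) : f ∈ hyperk K S k ↔ ∑ w, f w = 0 := by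
  simp [hyperk]

theorem finrank_hyperk (S : Finset (HeightOneSpectrum (𝓞 K))) (k : Type*) [Field k] :
    finrank k (hyperk K S k) + 1 = Fintype.card (Pl K S) := by
  classical
  set φ := (∑ w, LinearMap.proj (R := k) (φ := fun _ => k) w : (Pl K S → k) →ₗ[k] k) with hφ
  have h1 := LinearMap.finrank_range_add_finrank_ker φ
  have h2 : LinearMap.range φ = ⊤ := by
    rw [LinearMap.range_eq_top]
    intro c
    obtain ⟨w₀⟩ : Nonempty (Pl K S) := by
      obtain ⟨w⟩ : Nonempty (InfinitePlace K) := inferInstance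
      exact ⟨Sum.inl w⟩
    refine ⟨Pi.single w₀ c, ?_⟩
    rw [hφ, LinearMap.sum_apply]
    simp only [LinearMap.proj_apply]
    rw [Finset.sum_eq_single w₀]
    · simp
    · intro b _ hb
      rw [Pi.single_eq_of_ne hb]
    · simp
  rw [h2, finrank_top, finrank_self, finrank_fintype_fun_eq_card] at h1
  show finrank k (LinearMap.ker φ) + 1 = _
  omega

theorem finrank_hyper (S : Finset (HeightOneSpectrum (𝓞 K))) (k : Type*) [Field k] :
    finrank ℝ (hyper K S) = finrank k (hyperk K S k) := by
  have h1 := finrank_hyperk S k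
  have h2 : finrank ℝ (hyper K S) + 1 = Fintype.card (Pl K S) := finrank_hyperk S ℝ
  omega

variable (k : Type*) [Field k] [Algebra ℝ k]

/-- **`S`-unit theorem, injectivity**: `λ_S : k ⊗ O_S^× → k^{S(K)}` is injective for every
field `k ⊇ ℝ`. -/
theorem lam_injective (S : Finset (HeightOneSpectrum (𝓞 K))) :
    Function.Injective (lam S k) := by
  classical
  have : CharZero k := charZero_of_injective_algebraMap (algebraMap ℝ k).injective
  obtain ⟨u, hli, -, hu⟩ := exists_fundamental S
  have hsp := tensor_span S k u hu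
  have hli2 : LinearIndependent k (fun i => lam S k ((1 : k) ⊗ₜ[ℤ] u i)) := by
    have h1 := linearIndependent_algebraMap_comp_iff (S := k) |>.mpr hli
    have h2 : (fun i => lam S k ((1 : k) ⊗ₜ[ℤ] u i))
        = fun i => ⇑(algebraMap ℝ k) ∘ (plog S) ↑(u i) := by
      funext i w
      simp
    rw [h2]
    exact h1
  have hli3 : LinearIndependent k (fun i => (1 : k) ⊗ₜ[ℤ] u i) := LinearIndependent.of_comp _ hli2
  exact LinearMap.injective_of_linearIndependent hsp hli2

omit [Algebra ℝ k] in
/-- `k ⊗ O_S^×` is finite dimensional -/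
theorem finite_tensor (S : Finset (HeightOneSpectrum (𝓞 K))) [CharZero k] :
    Module.Finite k (k ⊗[ℤ] U K S) := by
  classical
  obtain ⟨u, -, -, hu⟩ := exists_fundamental S
  exact ⟨⟨Finset.univ.image (fun i => (1 : k) ⊗ₜ[ℤ] u i), by
    rw [Finset.coe_image, Finset.coe_univ, Set.image_univ]
    exact tensor_span S k u hu⟩⟩

/-- **`S`-unit theorem, image**: the image of `λ_S` is the hyperplane `∑ = 0`. -/
theorem range_lam (S : Finset (HeightOneSpectrum (𝓞 K))) :
    LinearMap.range (lam S k) = hyperk K S k := by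
  classical
  have : CharZero k := charZero_of_injective_algebraMap (algebraMap ℝ k).injective
  have hle : LinearMap.range (lam S k) ≤ hyperk K S k := by
    rintro _ ⟨z, rfl⟩
    induction z using TensorProduct.induction_on with
    | zero => rw [map_zero]; exact Submodule.zero_mem _
    | add x y hx hy => rw [map_add]; exact Submodule.add_mem _ hx hy
    | tmul c x =>
      rw [mem_hyperk]
      simp only [lam_tmul]
      rw [← Finset.mul_sum, ← map_sum, sum_plog S x.1 x.2, map_zero, mul_zero]
  refine Submodule.eq_of_le_of_finrank_le hle ?_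
  obtain ⟨u, hli, -, hu⟩ := exists_fundamental S
  have hli2 : LinearIndependent k (fun i => lam S k ((1 : k) ⊗ₜ[ℤ] u i)) := by
    have h1 := linearIndependent_algebraMap_comp_iff (S := k) |>.mpr hli
    have h2 : (fun i => lam S k ((1 : k) ⊗ₜ[ℤ] u i))
        = fun i => ⇑(algebraMap ℝ k) ∘ (plog S) ↑(u i) := by
      funext i w
      simp
    rw [h2]
    exact h1
  have h5 : LinearIndependent k (fun i => (⟨lam S k ((1 : k) ⊗ₜ[ℤ] u i), ⟨_, rfl⟩⟩ :
      LinearMap.range (lam S k))) := by
    refine LinearIndependent.of_comp (Submodule.subtype _) ?_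
    exact hli2
  have h6 := h5.fintype_card_le_finrank
  rw [Fintype.card_fin, finrank_hyper S k] at h6
  exact h6

/-- the `S`-units are a finitely generated group -/
instance (S : Finset (HeightOneSpectrum (𝓞 K))) : Module.Finite ℤ (U K S) := by
  classical
  obtain ⟨u, -, -, hu⟩ := exists_fundamental S
  -- torsion is finite
  have htor : {x : U K S | IsOfFinAddOrder x}.Finite := by
    have h1 := finite_bounded S 0
    refine Set.Finite.of_finite_image (f := fun x : U K S => x.1) (h1.subset ?_)
      Subtype.val_injective.injOn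
    rintro _ ⟨x, hx, rfl⟩
    refine ⟨x.2, fun w => ?_⟩
    obtain ⟨n, hn, hnx⟩ := isOfFinAddOrder_iff_nsmul_eq_zero.mp hx
    have h2 : n • plog S x.1 = 0 := by
      rw [← map_nsmul]
      have : n • x.1 = 0 := by
        have := congrArg Subtype.val hnx
        exact this
      rw [this, map_zero]
    have h3 := congrFun h2 w
    have h4 : plog S x.1 w = 0 := by
      simpa [hn.ne'] using h3
    rw [h4]
    simp
  refine ⟨⟨Finset.univ.image u ∪ htor.toFinset, ?_⟩⟩
  rw [eq_top_iff]
  rintro x -
  obtain ⟨n, hn⟩ := hu x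
  have h2 : x = (x - ∑ i, n i • u i) + ∑ i, n i • u i := by abel
  rw [h2]
  refine Submodule.add_mem _ ?_ (Submodule.sum_mem _ fun i _ => Submodule.smul_mem _ _ ?_)
  · apply Submodule.subset_span
    simp only [Finset.coe_union, Set.mem_union, Set.Finite.coe_toFinset, Set.mem_ofPred_eq]
    exact Or.inr hn
  · apply Submodule.subset_span
    simp

end SUnit
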